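import Pool.Agent.N115.JS.Stm
import Pool.Agent.TH466.QG.Strong

/-!
JS/1: specializations map finitely many given elements of `L` to elements of `E`.
-/

set_option autoImplicit false
set_option linter.overlappingInstances false

open FF IntermediateField

namespace Pool.Agent.N966.JS

open Pool.Agent.TH466.QG Pool.Agent.W602.GT

theorem spreadRange : Pool.Agent.N115.JS.SpreadRange := by
  intro k L K' _ _ _ _ _ _ _ _ _ M x i1 hi1 hgen Λ hΛ
  obtain ⟨H, hH, hG⟩ := exists_den (adjoin_norm hgen hi1) hΛ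
  refine ⟨{algebraMap L K' (MvPolynomial.aeval (fun i => x i / x i1) H)⁻¹}, Set.toFinite _, ?_⟩
  intro E K'' _ _ _ _ _ _ S z hz hΘ l hl
  let S0 : Sp k L K'' := S.res
  have hS1 : ∃ t, S0.T (MvPolynomial.aeval (fun i => x i / x i1) H)⁻¹ t := hΘ _ rfl
  have hz0 : ∀ i, S0.T (x i / x i1) (algebraMap E K'' (z i)) := hz
  have hval : ∀ G : MvPolynomial (Fin (M + 1)) k,
      S0.T (MvPolynomial.aeval (fun i => x i / x i1) G)
        (MvPolynomial.aeval (fun i => algebraMap E K'' (z i)) G) := fun G => S0.val hz0 G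
  have hinv := S0.inv (hval H) hS1 hH
  obtain ⟨G, hG'⟩ := hG l hl
  refine ⟨MvPolynomial.aeval z G / MvPolynomial.aeval z H, ?_⟩
  have he : ∀ G : MvPolynomial (Fin (M + 1)) k,
      MvPolynomial.aeval (fun i => algebraMap E K'' (z i)) G =
        algebraMap E K'' (MvPolynomial.aeval z G) := fun G =>
    MvPolynomial.aeval_algebraMap_apply K'' z G
  rw [map_div₀, ← he, ← he, div_eq_mul_inv]
  have h1 := S0.mul (hval G) hinv
  have h2 : l = MvPolynomial.aeval (fun i => x i / x i1) G *
      (MvPolynomial.aeval (fun i => x i / x i1) H)⁻¹ := by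
    rw [eq_mul_inv_iff_mul_eq₀ hH]
    exact hG'
  rw [← h2] at h1
  exact h1

end Pool.Agent.N966.JS

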